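import Mathlib

set_option autoImplicit false

namespace Pool.Agent.Results.MP_01c350_lc.NotEquiv

open FirstOrder FirstOrder.Language CategoryTheory MeasureTheory

def StrongFraisse (L : FirstOrder.Language.{0, 0}) (K : Set (Bundled.{0} L.Structure)) : Prop :=
  K.Nonempty ∧ (∀ A ∈ K, Finite A) ∧
  (∀ A B : Bundled.{0} L.Structure, Nonempty (A ↪[L] B) → B ∈ K → A ∈ K) ∧
  (∀ A ∈ K, ∀ B ∈ K, ∃ C ∈ K, Nonempty (A ↪[L] C) ∧ Nonempty (B ↪[L] C)) ∧
  ∀ A ∈ K, ∀ B ∈ K, ∀ C ∈ K, ∀ (f : A ↪[L] B) (g : A ↪[L] C), ∃ D ∈ K,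
    ∃ (f' : B ↪[L] D) (g' : C ↪[L] D), (∀ a, f' (f a) = g' (g a)) ∧
      ∀ b c, f' b = g' c → ∃ a, f a = b ∧ g a = c

def Trivial (L : FirstOrder.Language.{0, 0}) (K : Set (Bundled.{0} L.Structure)) : Prop :=
  ∀ (n : ℕ) (ψ : L.Formula (Fin n)), BoundedFormula.IsAtomic ψ →
    (∀ A ∈ K, ∀ x : Fin n → A, Function.Injective x → ψ.Realize x) ∨
    (∀ A ∈ K, ∀ x : Fin n → A, Function.Injective x → ¬ ψ.Realize x)

def FewTypes (X : Type) (L : FirstOrder.Language.{0, 0}) (K : Set (Bundled.{0} L.Structure)) : Prop :=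
  ∃ F : X → Bundled.{0} L.Structure, ∀ A ∈ K, ∃ x, Nonempty (A ≃[L] F x)

structure Cohen (X : Type) (L : FirstOrder.Language.{0, 0}) (K : Set (Bundled.{0} L.Structure)) where
  dom : Finset X
  str : L.Structure dom
  mem : (⟨dom, str⟩ : Bundled.{0} L.Structure) ∈ K

instance (X : Type) (L : FirstOrder.Language.{0, 0}) (K : Set (Bundled.{0} L.Structure)) :
    Preorder (Cohen X L K) where
  le p q := ∃ h : q.dom ⊆ p.dom, ∀ (n : ℕ) (r : L.Relations n) (x : Fin n → q.dom),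
    q.str.RelMap r x ↔ p.str.RelMap r (fun i => ⟨x i, h (x i).2⟩)
  le_refl _ := ⟨fun _ h => h, fun _ _ _ => Iff.rfl⟩
  le_trans _ _ _ := fun ⟨h1, k1⟩ ⟨h2, k2⟩ => ⟨h2.trans h1, fun n r x => (k2 n r x).trans (k1 n r _)⟩

abbrev RO (P : Type) [Preorder P] := Heyting.Regular (LowerSet P)

def LL (I : Type) : FirstOrder.Language.{0, 0} := ⟨fun _ => Empty, fun n => {_i : I // n = 1}⟩

instance (I : Type) : (LL I).IsRelational := fun _ => inferInstanceAs (IsEmpty Empty)

def Col {I : Type} (A : Bundled.{0} (LL I).Structure) (c : A → I) : Prop :=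
  ∀ (n : ℕ) (r : (LL I).Relations n) (x : Fin n → A), Structure.RelMap r x ↔ ∀ j, c (x j) = r.1

def KK (I : Type) : Set (Bundled.{0} (LL I).Structure) := {A | Finite A ∧ ∃ c, Col A c}

@[reducible] def mkS {I A : Type} (c : A → I) : (LL I).Structure A where
  funMap f := Empty.elim f
  RelMap r x := ∀ j, c (x j) = r.1

variable {I : Type}

theorem mk_col {A : Type} (c : A → I) : Col ⟨A, mkS c⟩ c := fun _ _ _ => Iff.rfl

def mkE {A B : Bundled.{0} (LL I).Structure} {c : A → I} {d : B → I} (hc : Col A c) (hd : Col B d)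
    (f : A → B) (hf : Function.Injective f) (h : ∀ a, d (f a) = c a) : A ↪[LL I] B where
  toFun := f
  inj' := hf
  map_fun' g := Empty.elim g
  map_rel' r x := by
    rw [hc, hd]
    simp only [Function.comp, h]

theorem emb_col {A B : Bundled.{0} (LL I).Structure} {c : A → I} {d : B → I} (hc : Col A c)
    (hd : Col B d) (f : A ↪[LL I] B) (a : A) : d (f a) = c a := by
  have := f.map_rel (n := 1) ⟨c a, rfl⟩ (fun _ => a)
  rw [hc, hd] at this
  exact this.2 (fun _ => rfl) 0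

theorem fraisse : StrongFraisse (LL I) (KK I) := by
  classical
  refine ⟨⟨⟨Empty, mkS Empty.elim⟩, inferInstanceAs (Finite Empty), _, mk_col _⟩,
    fun A h => h.1, ?_, ?_, ?_⟩
  · rintro A B ⟨f⟩ ⟨h, d, hd⟩
    refine ⟨Finite.of_injective f f.injective, d ∘ f, fun n r x => ?_⟩
    rw [← f.map_rel, hd]
    rfl
  · rintro A ⟨hA, c, hc⟩ B ⟨hB, d, hd⟩
    exact ⟨⟨A ⊕ B, mkS (Sum.elim c d)⟩, ⟨inferInstanceAs (Finite (A ⊕ B)), _, mk_col _⟩,
      ⟨mkE hc (mk_col _) Sum.inl Sum.inl_injective fun _ => rfl⟩,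
      ⟨mkE hd (mk_col _) Sum.inr Sum.inr_injective fun _ => rfl⟩⟩
  · rintro A ⟨hA, a, ha⟩ B ⟨hB, b, hb⟩ C ⟨hC, c, hc⟩ f g
    let G : C → B ⊕ C := fun x => if h : ∃ y, g y = x then .inl (f h.choose) else .inr x
    have G1 : ∀ y, G (g y) = .inl (f y) := fun y => by
      have h : ∃ z, g z = g y := ⟨y, rfl⟩
      simp only [G, dif_pos h, g.injective h.choose_spec]
    have G2 : ∀ x, (¬ ∃ y, g y = x) → G x = .inr x := fun x h => dif_neg h
    refine ⟨⟨B ⊕ C, mkS (Sum.elim b c)⟩, ⟨inferInstanceAs (Finite (B ⊕ C)), _, mk_col _⟩,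
      mkE hb (mk_col _) Sum.inl Sum.inl_injective fun _ => rfl, mkE hc (mk_col _) G ?_ ?_,
      fun y => (G1 y).symm, fun u x h => ?_⟩
    · intro x x' h
      by_cases h1 : ∃ y, g y = x <;> by_cases h2 : ∃ y, g y = x'
      · obtain ⟨y, rfl⟩ := h1
        obtain ⟨y', rfl⟩ := h2
        rw [G1, G1] at h
        rw [f.injective (Sum.inl_injective h)]
      · obtain ⟨y, rfl⟩ := h1
        rw [G1, G2 _ h2] at h
        cases h
      · obtain ⟨y, rfl⟩ := h2
        rw [G1, G2 _ h1] at h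
        cases h
      · rw [G2 _ h1, G2 _ h2] at h
        exact Sum.inr_injective h
    · intro x
      by_cases h1 : ∃ y, g y = x
      · obtain ⟨y, rfl⟩ := h1
        rw [G1, emb_col ha hc]
        exact emb_col ha hb f y
      · rw [G2 _ h1]
        rfl
    · change Sum.inl u = G x at h
      by_cases h1 : ∃ y, g y = x
      · obtain ⟨y, rfl⟩ := h1
        rw [G1] at h
        exact ⟨y, (Sum.inl_injective h).symm, rfl⟩
      · rw [G2 _ h1] at h
        cases h

theorem nontriv (i j : I) (hij : i ≠ j) : ¬ Trivial (LL I) (KK I) := by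
  intro h
  rcases h 1 (BoundedFormula.rel (l := 1) ⟨i, rfl⟩ fun _ => Term.var (Sum.inl 0))
    (BoundedFormula.IsAtomic.rel _ _) with h | h
  · exact hij (h ⟨Unit, mkS fun _ => j⟩ ⟨inferInstanceAs (Finite Unit), _, mk_col _⟩ (fun _ => ())
      (fun _ _ _ => Subsingleton.elim _ _) 0).symm
  · exact h ⟨Unit, mkS fun _ => i⟩ ⟨inferInstanceAs (Finite Unit), _, mk_col _⟩ (fun _ => ())
      (fun _ _ _ => Subsingleton.elim _ _) fun _ => rfl

def G (l : List I) : Bundled.{0} (LL I).Structure := ⟨Fin l.length, mkS l.get⟩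

theorem few (h : Cardinal.mk I ≤ Cardinal.mk ℝ) : FewTypes ℝ (LL I) (KK I) := by
  obtain ⟨e⟩ : Nonempty (List I ↪ ℝ) := by
    rw [← Cardinal.le_def]
    exact (Cardinal.mk_list_le_max I).trans (max_le (Cardinal.aleph0_le_mk ℝ) h)
  refine ⟨fun x => G (Function.invFun e x), ?_⟩
  rintro A ⟨hA, c, hc⟩
  obtain ⟨n, ⟨u⟩⟩ := Finite.exists_equiv_fin A
  refine ⟨e (List.ofFn (c ∘ u.symm)), ?_⟩
  suffices H : ∀ l, l = List.ofFn (c ∘ u.symm) → Nonempty (A ≃[LL I] G l) from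
    H _ (Function.leftInverse_invFun e.injective _)
  rintro _ rfl
  refine ⟨⟨u.trans (finCongr (by simp)), fun g => Empty.elim g, fun r x => ?_⟩⟩
  rw [hc]
  change (∀ j, _ = _) ↔ _
  refine forall_congr' fun j => Eq.congr_left ?_
  simp only [List.get_ofFn, Function.comp]
  exact congrArg c (u.symm_apply_apply (x j))

def CCC (B : Type) [BooleanAlgebra B] : Prop :=
  ∀ S : Set B, (∀ a ∈ S, a ≠ ⊥) → S.Pairwise Disjoint → S.Countable

theorem ccc_iso {B C : Type} [BooleanAlgebra B] [BooleanAlgebra C] (e : B ≃o C) (h : CCC C) :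
    CCC B := by
  intro S h1 h2
  refine Set.countable_of_injective_of_countable_image (f := e) e.injective.injOn (h _ ?_ ?_)
  · rintro _ ⟨a, ha, rfl⟩ k
    exact h1 a ha (e.injective (by rw [k, e.map_bot]))
  · rintro _ ⟨a, ha, rfl⟩ _ ⟨b, hb, rfl⟩ k
    exact (h2 ha hb fun c => k (by rw [c])).map_orderIso e

def cnd (s : Finset ℝ) (c : s → I) : Cohen ℝ (LL I) (KK I) :=
  ⟨s, mkS c, inferInstanceAs (Finite s), _, mk_col _⟩

theorem not_ccc : ¬ CCC (RO (Cohen ℝ (LL ℝ) (KK ℝ))) := by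
  intro h
  let u : ℝ → RO (Cohen ℝ (LL ℝ) (KK ℝ)) := fun r =>
    Heyting.Regular.toRegular (LowerSet.Iic (cnd {0} fun _ => r))
  have h0 : ∀ r, u r ≠ ⊥ := fun r k => by
    have a : LowerSet.Iic (cnd {0} fun _ => r) ≤ (u r : LowerSet _) := le_compl_compl
    rw [k] at a
    exact a (show cnd {0} (fun _ => r) ≤ cnd {0} (fun _ => r) from le_rfl)
  have h1 : ∀ r s, r ≠ s → Disjoint (u r) (u s) := fun r s k => by
    rw [disjoint_iff]
    apply Heyting.Regular.coe_injective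
    change (LowerSet.Iic _)ᶜᶜ ⊓ (LowerSet.Iic _)ᶜᶜ = ⊥
    rw [← disjoint_iff, disjoint_compl_compl_left_iff, disjoint_compl_compl_right_iff,
      disjoint_iff, eq_bot_iff]
    rintro p ⟨⟨a1, a2⟩, ⟨b1, b2⟩⟩
    have := (b2 1 ⟨r, rfl⟩ fun _ => ⟨0, by simp [cnd]⟩).2
      ((a2 1 ⟨r, rfl⟩ fun _ => ⟨0, by simp [cnd]⟩).1 fun _ => rfl) 0
    exact k this.symm
  have := h (Set.range u) (by rintro _ ⟨r, rfl⟩; exact h0 r) (by
    rintro _ ⟨r, rfl⟩ _ ⟨s, rfl⟩ k
    exact h1 r s fun c => k (by rw [c]))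
  have inj : Function.Injective u := fun r s k => by
    by_contra c
    have := h1 r s c
    rw [k, disjoint_self] at this
    exact h0 s this
  rw [← Set.image_univ] at this
  exact Set.not_countable_univ (Set.countable_of_injective_of_countable_image inj.injOn this)

theorem ccc : CCC (RO (Cohen ℝ (LL Bool) (KK Bool))) := by
  classical
  intro S h1 h2
  have e : ∀ a : S, ∃ p, p ∈ (a.1 : LowerSet (Cohen ℝ (LL Bool) (KK Bool))) := fun a => by
    by_contra c
    refine h1 a a.2 (Heyting.Regular.coe_injective (eq_bot_iff.2 fun p hp => ?_))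
    exact absurd ⟨p, hp⟩ c
  choose p hp using e
  have e2 : ∀ a : S, ∃ c : ℝ → Bool, Col ⟨(p a).dom, (p a).str⟩ fun x => c x.1 := fun a => by
    obtain ⟨-, c, hc⟩ := (p a).mem
    refine ⟨fun x => if h : x ∈ (p a).dom then c ⟨x, h⟩ else true, ?_⟩
    convert hc using 2 with x
    exact dif_pos x.2
  choose c hc using e2
  let ν : Measure Bool := (PMF.uniformOfFintype Bool).toMeasure
  let μ : Measure (ℝ → Bool) := Measure.infinitePi fun _ => ν
  let C : S → Set (ℝ → Bool) := fun a => Set.pi (p a).dom fun x => {c a x}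
  have hm : ∀ a, MeasurableSet (C a) := fun a =>
    MeasurableSet.pi (p a).dom.countable_toSet fun _ _ => measurableSet_singleton _
  have hd : Pairwise (Function.onFun Disjoint C) := by
    intro a b hab
    rw [Function.onFun, Set.disjoint_left]
    intro w ha hb
    have k : ∀ a' : S, w ∈ C a' → (p a').dom ⊆ (p a).dom ∪ (p b).dom →
        cnd ((p a).dom ∪ (p b).dom) (fun x => w x) ∈ (a'.1 : LowerSet _) := by
      intro a' h3 h4
      refine (a'.1 : LowerSet (Cohen ℝ (LL Bool) (KK Bool))).lower (a := p a') ?_ (hp a')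
      refine ⟨h4, fun n r x => ?_⟩
      refine (hc a' n r x).trans (forall_congr' fun j => ?_)
      exact Eq.congr_left (h3 (x j) (x j).2).symm
    have d := h2 a.2 b.2 fun q => hab (Subtype.ext q)
    rw [disjoint_iff] at d
    have d' : (a.1 : LowerSet (Cohen ℝ (LL Bool) (KK Bool))) ⊓ b.1 = ⊥ := congrArg Subtype.val d
    have : cnd ((p a).dom ∪ (p b).dom) (fun x => w x) ∈ (a.1 : LowerSet _) ⊓ b.1 :=
      ⟨k a ha Finset.subset_union_left, k b hb Finset.subset_union_right⟩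
    rw [d'] at this
    exact this
  have := Measure.countable_meas_pos_of_disjoint_iUnion (μ := μ) hm hd
  have pos : ∀ a, 0 < μ (C a) := fun a => by
    rw [Measure.infinitePi_pi _ fun _ _ => measurableSet_singleton _]
    refine pos_iff_ne_zero.2 (Finset.prod_ne_zero_iff.2 fun x _ => ?_)
    simp [ν]
  simp only [pos, Set.setOf_true, Set.countable_univ_iff] at this
  exact Set.countable_coe_iff.1 this

theorem result :
    ∃ (X : Type) (_ : Infinite X) (L₀ L₁ : FirstOrder.Language.{0, 0}) (_ : L₀.IsRelational)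
      (_ : L₁.IsRelational) (K₀ : Set (Bundled.{0} L₀.Structure))
      (K₁ : Set (Bundled.{0} L₁.Structure)),
      StrongFraisse L₀ K₀ ∧ StrongFraisse L₁ K₁ ∧ ¬ Trivial L₀ K₀ ∧ ¬ Trivial L₁ K₁ ∧
      FewTypes X L₀ K₀ ∧ FewTypes X L₁ K₁ ∧
      IsEmpty (RO (Cohen X L₀ K₀) ≃o RO (Cohen X L₁ K₁)) :=
  ⟨ℝ, inferInstance, LL ℝ, LL Bool, inferInstance, inferInstance, KK ℝ, KK Bool, fraisse, fraisse,
    nontriv 0 1 (by norm_num), nontriv true false (by decide), few le_rfl,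
    few ((Cardinal.mk_le_aleph0 (α := Bool)).trans (Cardinal.aleph0_le_mk ℝ)),
    ⟨fun e => not_ccc (ccc_iso e ccc)⟩⟩

end Pool.Agent.Results.MP_01c350_lc.NotEquiv
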